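import Pool.Agent.Helper70.MM.Goals2

open MeasureTheory Set Metric
open scoped ENNReal RealInnerProductSpace Topology
open Pool.Agent.Results.MP_91ee6f_gt
open Pool.Agent.Helper70.MM

namespace Pool.Agent.Helper60.MM

lemma isClosed_cube (n : ℕ) (ℓ : ℝ) : IsClosed (cube n ℓ) := by
  have h : cube n ℓ = ⋂ i : Fin n, {x : En n | 0 ≤ x i ∧ x i ≤ ℓ} := by
    ext x
    simp [cube]
  rw [h]
  refine isClosed_iInter fun i => ?_
  have hc : Continuous fun x : En n => x i := by fun_prop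
  exact (isClosed_le continuous_const hc).inter (isClosed_le hc continuous_const)

lemma dist_le_cube {n : ℕ} {ℓ : ℝ} (hℓ : 0 < ℓ) {x y : En n} (hx : x ∈ cube n ℓ)
    (hy : y ∈ cube n ℓ) : dist x y ≤ Real.sqrt n * ℓ := by
  rw [EuclideanSpace.dist_eq]
  have h1 : ∑ i, dist (x i) (y i) ^ 2 ≤ n * ℓ ^ 2 := by
    calc ∑ i, dist (x i) (y i) ^ 2 ≤ ∑ i : Fin n, ℓ ^ 2 := by
          refine Finset.sum_le_sum fun i _ => ?_
          have h2 := hx i
          have h3 := hy i
          have h4 : |x i - y i| ≤ ℓ := abs_le.2 ⟨by linarith [h2.1, h3.2], by linarith [h2.2, h3.1]⟩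
          rw [Real.dist_eq]
          exact pow_le_pow_left₀ (abs_nonneg _) h4 2
      _ = n * ℓ ^ 2 := by simp
  calc Real.sqrt (∑ i, dist (x i) (y i) ^ 2) ≤ Real.sqrt (n * ℓ ^ 2) := Real.sqrt_le_sqrt h1
    _ = Real.sqrt n * ℓ := by
      rw [Real.sqrt_mul (Nat.cast_nonneg n), Real.sqrt_sq hℓ.le]

lemma dist_lt_cube {n : ℕ} {ℓ : ℝ} (hℓ : 0 < ℓ) {x y : En n} (hx : x ∈ cube n ℓ)
    (hy : y ∈ cube n ℓ) {i₀ : Fin n} (h0 : 0 < x i₀) (h1 : x i₀ < ℓ) :
    dist x y < Real.sqrt n * ℓ := by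
  rw [EuclideanSpace.dist_eq]
  have h1 : ∑ i, dist (x i) (y i) ^ 2 < n * ℓ ^ 2 := by
    calc ∑ i, dist (x i) (y i) ^ 2 < ∑ i : Fin n, ℓ ^ 2 := by
          refine Finset.sum_lt_sum (fun i _ => ?_) ⟨i₀, Finset.mem_univ _, ?_⟩
          · have h2 := hx i
            have h3 := hy i
            have h4 : |x i - y i| ≤ ℓ :=
              abs_le.2 ⟨by linarith [h2.1, h3.2], by linarith [h2.2, h3.1]⟩
            rw [Real.dist_eq]
            exact pow_le_pow_left₀ (abs_nonneg _) h4 2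
          · have h3 := hy i₀
            have h4 : |x i₀ - y i₀| < ℓ :=
              abs_lt.2 ⟨by linarith [h3.2], by linarith [h3.1]⟩
            rw [Real.dist_eq]
            exact pow_lt_pow_left₀ h4 (abs_nonneg _) (by norm_num)
      _ = n * ℓ ^ 2 := by simp
  calc Real.sqrt (∑ i, dist (x i) (y i) ^ 2) < Real.sqrt (n * ℓ ^ 2) :=
        Real.sqrt_lt_sqrt (Finset.sum_nonneg fun i _ => sq_nonneg _) h1
    _ = Real.sqrt n * ℓ := by
      rw [Real.sqrt_mul (Nat.cast_nonneg n), Real.sqrt_sq hℓ.le]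

theorem cskel : SING → CSKEL := by
  intro hS n ℓ hℓ w hw hwc c hcx hcs x hx hk
  have hcl := isClosed_cube n ℓ
  have hae : ∀ᵐ y ∂w, y ∈ cube n ℓ := by
    rw [ae_iff]
    exact hwc
  have hxc : x ∈ cube n ℓ := Measure.support_subset_of_isClosed hcl hae hx
  set F : Finset (Fin n) := Finset.univ.filter fun i => 0 < x i ∧ x i < ℓ with hF
  set k : ℕ := F.card with hkk
  -- the unit vectors
  let σ : Fin k → Fin n := fun j => (F.equivFin.symm j : Fin n)
  have hσF : ∀ j, σ j ∈ F := fun j => (F.equivFin.symm j).2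
  have hσinj : Function.Injective σ := fun a b hab =>
    F.equivFin.symm.injective (Subtype.ext hab)
  let v : Fin k → En n := fun j => EuclideanSpace.single (σ j) (1 : ℝ)
  have hv : Orthonormal ℝ v := (EuclideanSpace.orthonormal_single (𝕜 := ℝ) (ι := Fin n)).comp σ hσinj
  have hδ : ∃ δ > 0, ∀ i ∈ F, δ < x i ∧ δ < ℓ - x i := by
    have h : ∀ᶠ δ in 𝓝[>] (0 : ℝ), ∀ i ∈ F, δ < x i ∧ δ < ℓ - x i := by
      rw [Filter.eventually_all_finset]
      intro i hi
      have hi' := (Finset.mem_filter.1 hi).2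
      filter_upwards [Ioo_mem_nhdsGT hi'.1, Ioo_mem_nhdsGT (sub_pos.2 hi'.2)] with δ h1 h2
      exact ⟨h1.2, h2.2⟩
    obtain ⟨δ, h1, h2⟩ := (h.and self_mem_nhdsWithin).exists
    exact ⟨δ, h2, h1⟩
  obtain ⟨δ, hδ0, hδ⟩ := hδ
  have key := hS n k w inferInstance x v hv ⟨δ, hδ0, fun t ht j => by
    rw [hcs x hx]
    refine hcx _ fun i => ?_
    have hj := hδ _ (hσF j)
    have hxi := hxc i
    have e1 : (x + t • v j) i = x i + t * (if i = σ j then 1 else 0) := by
      simp [v, PiLp.single_apply]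
    rw [e1]
    rw [abs_lt] at ht
    split_ifs with h
    · rw [h]
      constructor <;> nlinarith [hj.1, hj.2]
    · simpa using hxi⟩
  have hmE : Measurable fun y : En n => ENNReal.ofReal (Real.exp (-dist x y)) := by fun_prop
  have hmD : Measurable fun y : En n => edist x y := by fun_prop
  have hmQ : Measurable fun y : En n => ENNReal.ofReal (Real.exp (-dist x y)) / edist x y :=
    hmE.div hmD
  have hR : ∫⁻ y, ENNReal.ofReal (Real.exp (-dist x y)) ∂w ≤ 1 := by
    calc ∫⁻ y, ENNReal.ofReal (Real.exp (-dist x y)) ∂w ≤ ∫⁻ _, 1 ∂w := by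
          refine lintegral_mono fun y => ?_
          rw [← ENNReal.ofReal_one]
          refine ENNReal.ofReal_le_ofReal ?_
          rw [Real.exp_le_one_iff]
          linarith [dist_nonneg (x := x) (y := y)]
      _ = 1 := by simp
  have hR' : ∫⁻ y, ENNReal.ofReal (Real.exp (-dist x y)) ∂w ≠ ∞ :=
    ne_top_of_le_ne_top ENNReal.one_ne_top hR
  have hk2 : (2 : ℝ≥0∞) ≤ (k : ℝ≥0∞) := by exact_mod_cast hk
  have hk1 : (1 : ℝ≥0∞) ≤ (k : ℝ≥0∞) - 1 := by
    calc (1 : ℝ≥0∞) = 2 - 1 := ENNReal.eq_sub_of_add_eq ENNReal.one_ne_top (by norm_num)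
      _ ≤ _ := tsub_le_tsub_right hk2 1
  refine ⟨?_, ?_⟩
  · have h1 : ∫⁻ y, ENNReal.ofReal (Real.exp (-dist x y)) / edist x y ∂w ≤ 1 := by
      calc ∫⁻ y, ENNReal.ofReal (Real.exp (-dist x y)) / edist x y ∂w
          = 1 * ∫⁻ y, ENNReal.ofReal (Real.exp (-dist x y)) / edist x y ∂w := (one_mul _).symm
        _ ≤ ((k : ℝ≥0∞) - 1) * ∫⁻ y, ENNReal.ofReal (Real.exp (-dist x y)) / edist x y ∂w :=
            mul_le_mul_left hk1 _
        _ ≤ 1 := key.trans hR
    have h2 : ∫⁻ y, (edist x y)⁻¹ ∂w ≤ ENNReal.ofReal (Real.exp (Real.sqrt n * ℓ)) *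
        ∫⁻ y, ENNReal.ofReal (Real.exp (-dist x y)) / edist x y ∂w := by
      rw [← lintegral_const_mul _ hmQ]
      refine lintegral_mono_ae ?_
      filter_upwards [hae] with y hy
      have h3 : (1 : ℝ≥0∞) ≤ ENNReal.ofReal (Real.exp (Real.sqrt n * ℓ)) *
          ENNReal.ofReal (Real.exp (-dist x y)) := by
        rw [← ENNReal.ofReal_mul (Real.exp_pos _).le, ← Real.exp_add, ← ENNReal.ofReal_one]
        refine ENNReal.ofReal_le_ofReal (Real.one_le_exp ?_)
        linarith [dist_le_cube hℓ hxc hy]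
      calc (edist x y)⁻¹ = 1 * (edist x y)⁻¹ := (one_mul _).symm
        _ ≤ (ENNReal.ofReal (Real.exp (Real.sqrt n * ℓ)) *
          ENNReal.ofReal (Real.exp (-dist x y))) * (edist x y)⁻¹ := mul_le_mul_left h3 _
        _ = _ := by rw [mul_assoc, div_eq_mul_inv]
    refine lt_of_le_of_lt h2 (ENNReal.mul_lt_top ENNReal.ofReal_lt_top ?_)
    exact lt_of_le_of_lt h1 ENNReal.one_lt_top
  · by_contra hcon
    push Not at hcon
    have hF0 : F.Nonempty := by
      rw [← Finset.card_pos]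
      omega
    obtain ⟨i₀, hi₀⟩ := hF0
    have hi₀' := (Finset.mem_filter.1 hi₀).2
    have hk1' : (k : ℝ≥0∞) - 1 = ENNReal.ofReal ((k : ℝ) - 1) := by
      rw [ENNReal.ofReal_sub _ zero_le_one, ENNReal.ofReal_one, ENNReal.ofReal_natCast]
    have hlt : ∫⁻ y, ENNReal.ofReal (Real.exp (-dist x y)) ∂w <
        ∫⁻ y, ((k : ℝ≥0∞) - 1) * (ENNReal.ofReal (Real.exp (-dist x y)) / edist x y) ∂w := by
      refine lintegral_strict_mono (IsProbabilityMeasure.ne_zero w)
        (hmQ.const_mul _).aemeasurable hR' ?_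
      filter_upwards [hae] with y hy
      have hd := dist_lt_cube hℓ hxc hy hi₀'.1 hi₀'.2
      have hd' : edist x y < (k : ℝ≥0∞) - 1 := by
        rw [hk1', edist_dist]
        refine (ENNReal.ofReal_lt_ofReal_iff ?_).2 ?_
        · have := dist_nonneg (x := x) (y := y)
          linarith
        · linarith
      have hE0 : ENNReal.ofReal (Real.exp (-dist x y)) ≠ 0 := by
        rw [Ne, ENNReal.ofReal_eq_zero, not_le]
        exact Real.exp_pos _
      have hE1 : ENNReal.ofReal (Real.exp (-dist x y)) ≠ ∞ := ENNReal.ofReal_ne_top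
      rw [← mul_div_assoc]
      have hgoal : ENNReal.ofReal (Real.exp (-dist x y)) <
          ((k : ℝ≥0∞) - 1) * ENNReal.ofReal (Real.exp (-dist x y)) / edist x y := by
        rw [ENNReal.lt_div_iff_mul_lt]
        · rw [mul_comm]
          exact ENNReal.mul_lt_mul_left hE0 hE1 hd'
        · right
          exact hE1
        · left
          exact edist_ne_top _ _
      exact hgoal
    rw [lintegral_const_mul _ hmQ] at hlt
    exact absurd key (not_le.2 hlt)

end Pool.Agent.Helper60.MM
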