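import Pool.Agent.Helper70.MM.Goals5

/-!
# MM5-PDER: derivative of the potential of a sphere
-/

set_option autoImplicit false

open MeasureTheory Set Metric
open scoped ENNReal RealInnerProductSpace Topology Pointwise
open Pool.Agent.Results.MP_91ee6f_gt
open Pool.Agent.Helper70.MM

namespace Pool.Agent.Helper60.MM

theorem null_point (n : ℕ) (hn : 2 ≤ n) (s : ℝ) (hs : 0 ≤ s) (x : En n) (hx : x ≠ 0) :
    sphUnif n s {x} = 0 := by
  by_cases hxs : ‖x‖ = s
  · have hs0 : s ≠ 0 := by
      rw [← hxs]
      exact norm_ne_zero_iff.2 hx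
    have hmeas : Measurable fun θ : sphere (0 : En n) 1 => s • (θ : En n) :=
      (measurable_subtype_coe).const_smul s
    unfold sphUnif
    rw [Measure.smul_apply, Measure.map_apply hmeas (measurableSet_singleton x), smul_eq_mul]
    have h0 : ((volume : Measure (En n)).toSphere)
        ((fun θ : sphere (0 : En n) 1 => s • (θ : En n)) ⁻¹' {x}) = 0 := by
      rw [Measure.toSphere_apply' _ (hmeas (measurableSet_singleton x))]
      have hsub : Ioo (0 : ℝ) 1 • ((↑) '' ((fun θ : sphere (0 : En n) 1 => s • (θ : En n)) ⁻¹' {x})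
          : Set (En n)) ⊆ ((Submodule.span ℝ {x} : Submodule ℝ (En n)) : Set (En n)) := by
        rintro _ ⟨t, _, _, ⟨θ, hθ, rfl⟩, rfl⟩
        have h1 : s • (θ : En n) = x := hθ
        have h2 : (θ : En n) = s⁻¹ • x := by
          rw [← h1, smul_smul, inv_mul_cancel₀ hs0, one_smul]
        show t • (θ : En n) ∈ _
        rw [h2]
        exact Submodule.smul_mem _ _ (Submodule.smul_mem _ _ (Submodule.mem_span_singleton_self x))
      have hne : (Submodule.span ℝ {x} : Submodule ℝ (En n)) ≠ ⊤ := by
        intro h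
        have h1 : Module.finrank ℝ (Submodule.span ℝ {x} : Submodule ℝ (En n)) = n := by
          rw [h, finrank_top, finrank_euclideanSpace, Fintype.card_fin]
        have h2 := finrank_span_singleton (K := ℝ) hx
        omega
      rw [measure_mono_null hsub (Measure.addHaar_submodule _ _ hne), mul_zero]
    rw [h0, mul_zero]
  · have h1 := (fSPH1 n (by omega) s).2.1 hs
    refine measure_mono_null ?_ h1
    rintro y rfl
    exact hxs

theorem exp_lip {a b : ℝ} (ha : 0 ≤ a) (hb : 0 ≤ b) :
    |Real.exp (-a) - Real.exp (-b)| ≤ |a - b| := by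
  wlog hab : a ≤ b generalizing a b
  · rw [abs_sub_comm, abs_sub_comm a b]
    exact this hb ha (le_of_not_ge hab)
  have h1 : Real.exp (-b) ≤ Real.exp (-a) := Real.exp_le_exp.2 (by linarith)
  rw [abs_of_nonneg (by linarith), abs_of_nonpos (by linarith)]
  have h2 : Real.exp (-b) = Real.exp (-a) * Real.exp (-(b - a)) := by
    rw [← Real.exp_add]
    ring_nf
  have h3 := Real.add_one_le_exp (-(b - a))
  have h4 : Real.exp (-a) ≤ 1 := Real.exp_le_one_iff.2 (by linarith)
  have h5 := Real.exp_pos (-a)
  have h6 : 0 ≤ b - a := by linarith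
  nlinarith

theorem dist_eq_sqrt {n : ℕ} (e y : En n) (he : ‖e‖ = 1) (t : ℝ) :
    dist (t • e) y = Real.sqrt (t ^ 2 - 2 * t * inner ℝ y e + ‖y‖ ^ 2) := by
  rw [dist_eq_norm, ← Real.sqrt_sq (norm_nonneg (t • e - y)), norm_sub_sq_real, norm_smul, he,
    real_inner_smul_left, real_inner_comm e y]
  congr 1
  rw [Real.norm_eq_abs, mul_one, sq_abs]
  ring

theorem hasDerivAt_exp_dist {n : ℕ} (e y : En n) (he : ‖e‖ = 1) (r : ℝ) (hy : y ≠ r • e) :
    HasDerivAt (fun t : ℝ => Real.exp (-dist (t • e) y))
      (-(Real.exp (-dist (r • e) y) * inner ℝ (r • e - y) e / dist (r • e) y)) r := by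
  have hd : 0 < dist (r • e) y := dist_pos.2 (Ne.symm hy)
  have hq : HasDerivAt (fun t : ℝ => t ^ 2 - 2 * t * inner ℝ y e + ‖y‖ ^ 2)
      (2 * r - 2 * inner ℝ y e) r := by
    have h1 := ((hasDerivAt_pow 2 r).sub (((hasDerivAt_id r).const_mul 2).mul_const
      (inner ℝ y e))).add_const (‖y‖ ^ 2)
    refine HasDerivAt.congr_deriv (f := fun t : ℝ => t ^ 2 - 2 * t * inner ℝ y e + ‖y‖ ^ 2) h1 ?_
    norm_num
  have hne : r ^ 2 - 2 * r * inner ℝ y e + ‖y‖ ^ 2 ≠ 0 := by
    intro h
    rw [dist_eq_sqrt e y he r, h, Real.sqrt_zero] at hd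
    exact lt_irrefl _ hd
  have h2 : HasDerivAt (fun t : ℝ => Real.exp (-Real.sqrt (t ^ 2 - 2 * t * inner ℝ y e + ‖y‖ ^ 2)))
      (Real.exp (-Real.sqrt (r ^ 2 - 2 * r * inner ℝ y e + ‖y‖ ^ 2)) *
        -((2 * r - 2 * inner ℝ y e) /
          (2 * Real.sqrt (r ^ 2 - 2 * r * inner ℝ y e + ‖y‖ ^ 2)))) r := (hq.sqrt hne).neg.exp
  have e1 : (fun t : ℝ => Real.exp (-dist (t • e) y)) =
      fun t : ℝ => Real.exp (-Real.sqrt (t ^ 2 - 2 * t * inner ℝ y e + ‖y‖ ^ 2)) := by
    funext t
    rw [dist_eq_sqrt e y he t]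
  rw [e1]
  refine h2.congr_deriv ?_
  rw [← dist_eq_sqrt e y he r, inner_sub_left, real_inner_smul_left, real_inner_self_eq_norm_sq, he]
  have hd' : dist (r • e) y ≠ 0 := hd.ne'
  field_simp

theorem integrand_le {n : ℕ} (e y : En n) (he : ‖e‖ = 1) (r : ℝ) :
    |Real.exp (-dist (r • e) y) * inner ℝ (r • e - y) e / dist (r • e) y| ≤ 1 := by
  have h1 : |inner ℝ (r • e - y) e| ≤ dist (r • e) y := by
    have := abs_real_inner_le_norm (r • e - y) e
    rwa [he, mul_one, ← dist_eq_norm] at this
  have h2 : Real.exp (-dist (r • e) y) ≤ 1 := Real.exp_le_one_iff.2 (by simp)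
  have h3 := Real.exp_pos (-dist (r • e) y)
  rw [abs_div, abs_mul, abs_of_pos h3, abs_of_nonneg (dist_nonneg (x := r • e) (y := y))]
  refine div_le_one_of_le₀ ?_ dist_nonneg
  calc Real.exp (-dist (r • e) y) * |inner ℝ (r • e - y) e|
      ≤ 1 * |inner ℝ (r • e - y) e| := mul_le_mul_of_nonneg_right h2 (abs_nonneg _)
    _ ≤ dist (r • e) y := by rw [one_mul]; exact h1

theorem meas_integrand {n : ℕ} (e : En n) (r : ℝ) :
    Measurable fun y : En n =>
      Real.exp (-dist (r • e) y) * inner ℝ (r • e - y) e / dist (r • e) y := by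
  have h1 : Continuous fun y : En n => dist (r • e) y := continuous_const.dist continuous_id
  have h2 : Continuous fun y : En n => (inner ℝ (r • e - y) e : ℝ) :=
    (continuous_const.sub continuous_id).inner continuous_const
  exact ((h1.neg.rexp.mul h2).measurable).div h1.measurable

theorem pder : PDER := by
  intro n hn e he s hs
  have hprob : IsProbabilityMeasure (sphUnif n s) := (fSPH1 n (by omega) s).1
  have hae : ∀ r : ℝ, 0 < r → ∀ᵐ y ∂(sphUnif n s), y ≠ r • e := by
    intro r hr
    have hne : r • e ≠ 0 := by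
      intro h
      have := congrArg norm h
      rw [norm_smul, he, norm_zero, Real.norm_eq_abs, abs_of_pos hr] at this
      linarith
    have h0 := null_point n hn s hs (r • e) hne
    rw [ae_iff]
    convert h0 using 2
    ext y
    simp
  refine ⟨fun r hr => ⟨?_, ?_⟩, ?_⟩
  · have hF : ∀ t : ℝ, Continuous fun y : En n => Real.exp (-dist (t • e) y) := fun t =>
      (continuous_const.dist continuous_id).neg.rexp
    have hbd : ∀ t : ℝ, ∀ y : En n, ‖Real.exp (-dist (t • e) y)‖ ≤ 1 := by
      intro t y
      rw [Real.norm_eq_abs, abs_of_pos (Real.exp_pos _)]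
      exact Real.exp_le_one_iff.2 (by simp)
    have key := hasDerivAt_integral_of_dominated_loc_of_lip (μ := sphUnif n s)
      (F := fun (t : ℝ) (y : En n) => Real.exp (-dist (t • e) y)) (x₀ := r)
      (s := ball r 1) (bound := fun _ => (1 : ℝ))
      (F' := fun y => -(Real.exp (-dist (r • e) y) * inner ℝ (r • e - y) e / dist (r • e) y))
      (ball_mem_nhds r one_pos)
      (Filter.Eventually.of_forall fun t => (hF t).aestronglyMeasurable)
      (Integrable.of_bound (hF r).aestronglyMeasurable 1
        (Filter.Eventually.of_forall fun y => hbd r y))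
      (meas_integrand e r).neg.aestronglyMeasurable
      (Filter.Eventually.of_forall fun y => by
        rw [Real.nnabs_of_nonneg zero_le_one]
        refine LipschitzOnWith.of_dist_le_mul fun t₁ _ t₂ _ => ?_
        rw [Real.dist_eq, Real.dist_eq]
        have h1 := exp_lip (dist_nonneg (x := t₁ • e) (y := y)) (dist_nonneg (x := t₂ • e) (y := y))
        have h2 : |dist (t₁ • e) y - dist (t₂ • e) y| ≤ |t₁ - t₂| := by
          refine (abs_dist_sub_le _ _ _).trans ?_
          rw [dist_eq_norm, ← sub_smul, norm_smul, he, mul_one, Real.norm_eq_abs]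
        have h3 : ((Real.toNNReal 1 : NNReal) : ℝ) = 1 := by simp
        rw [h3, one_mul]
        exact h1.trans h2)
      (integrable_const 1)
      (by
        filter_upwards [hae r hr] with y hy
        exact hasDerivAt_exp_dist e y he r hy)
    have h2 := key.2
    rw [integral_neg] at h2
    exact h2
  · unfold PD
    rw [abs_neg]
    have h1 := norm_integral_le_of_norm_le_const (μ := sphUnif n s) (C := 1)
      (f := fun y : En n =>
        Real.exp (-dist (r • e) y) * inner ℝ (r • e - y) e / dist (r • e) y)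
      (Filter.Eventually.of_forall fun y => integrand_le e y he r)
    have h2 : (sphUnif n s).real univ = 1 := by simp
    rw [h2, mul_one] at h1
    exact h1
  · intro r hr
    refine ContinuousAt.continuousWithinAt ?_
    unfold PD
    refine ContinuousAt.neg ?_
    refine continuousAt_of_dominated (bound := fun _ => (1 : ℝ))
      (Filter.Eventually.of_forall fun t => (meas_integrand e t).aestronglyMeasurable)
      (Filter.Eventually.of_forall fun t => Filter.Eventually.of_forall fun y =>
        integrand_le e y he t) (integrable_const 1) ?_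
    filter_upwards [hae r hr] with y hy
    have hd : dist (r • e) y ≠ 0 := (dist_pos.2 (Ne.symm hy)).ne'
    have c1 : Continuous fun t : ℝ => dist (t • e) y :=
      (continuous_id.smul continuous_const).dist continuous_const
    have c2 : Continuous fun t : ℝ => (inner ℝ (t • e - y) e : ℝ) :=
      ((continuous_id.smul continuous_const).sub continuous_const).inner continuous_const
    exact ((c1.neg.rexp.mul c2).continuousAt).div c1.continuousAt hd

end Pool.Agent.Helper60.MM
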